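import Pool.Agent.W937.FG.Stm

/-!
Project FG (helper937), part TOPS: soundness of the main program.
-/

set_option autoImplicit false

namespace Pool.Agent.W249.FG

open Pool.Agent.W937.FG Relation Function

lemma exec_op {T K : Type} [DecidableEq K] {e : Bool} {o : Op T K} {s s' : K → ℕ} {w : List T}
    (h : Exec e (.op o) s w s') : ExecO e o s w s' := by
  cases h with
  | op h => exact h

lemma exec_seq {T K : Type} [DecidableEq K] {e : Bool} {p q : Prog T K} {s u : K → ℕ}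
    {w : List T} (h : Exec e (.seq p q) s w u) :
    ∃ (t : K → ℕ) (w1 w2 : List T), w = w1 ++ w2 ∧ Exec e p s w1 t ∧ Exec e q t w2 u := by
  cases h with
  | seq h1 h2 => exact ⟨_, _, _, rfl, h1, h2⟩

/-- induction over rounds of a star -/
lemma exec_star {T K : Type} [DecidableEq K] {e : Bool} {p : Prog T K}
    (P : (K → ℕ) → List T → (K → ℕ) → Prop) (hnil : ∀ s, P s [] s)
    (hcons : ∀ s w t x u, Exec e p s w t → P t x u → P s (w ++ x) u)
    {s u : K → ℕ} {w : List T} (h : Exec e (.star p) s w u) : P s w u := by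
  generalize hq : Prog.star p = q at h
  induction h with
  | op h => exact absurd hq (by simp)
  | seq h1 h2 _ _ => exact absurd hq (by simp)
  | altl h _ => exact absurd hq (by simp)
  | altr h _ => exact absurd hq (by simp)
  | star_nil => exact hnil _
  | star_cons h1 h2 _ ih2 =>
    injection hq with hp
    subst hp
    exact hcons _ _ _ _ _ h1 (ih2 rfl)

lemma upd_N (n t : ℕ) (a r : ℕ → ℕ) (v : ℕ) : update (st n t a r) .N v = st v t a r := by
  funext i
  cases i <;> simp [st, update]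

lemma upd_M (n t : ℕ) (a r : ℕ → ℕ) (i v : ℕ) :
    update (st n t a r) (.M i) v = st n t a (update r i v) := by
  funext j
  cases j with
  | M j =>
    by_cases h : j = i
    · subst h; simp [st]
    · have h2 : (Reg.M j) ≠ Reg.M i := by
        intro h3; exact h (by injection h3)
      rw [update_of_ne h2]
      simp [st, update_of_ne h]
  | N => simp [st, update]
  | T => simp [st, update]
  | A j => simp [st, update]

lemma upd_A (n t : ℕ) (a r : ℕ → ℕ) (i v : ℕ) :
    update (st n t a r) (.A i) v = st n t (update a i v) r := by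
  funext j
  cases j with
  | A j =>
    by_cases h : j = i
    · subst h; simp [st]
    · have h2 : (Reg.A j) ≠ Reg.A i := by
        intro h3; exact h (by injection h3)
      rw [update_of_ne h2]
      simp [st, update_of_ne h]
  | N => simp [st, update]
  | T => simp [st, update]
  | M j => simp [st, update]

lemma st_inj {n n' t t' : ℕ} {a a' r r' : ℕ → ℕ} (h : st n t a r = st n' t' a' r') :
    n = n' ∧ t = t' ∧ a = a' ∧ r = r' := by
  refine ⟨congrFun h .N, congrFun h .T, ?_, ?_⟩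
  · funext j; exact congrFun h (.A j)
  · funext j; exact congrFun h (.M j)

lemma zero_eq_st : (fun _ : Reg => 0) = st 0 0 (fun _ => 0) (fun _ => 0) := by
  funext i
  cases i <;> rfl

lemma zeroA_spec (T : Type) (k : ℕ) : ∀ (s : Reg → ℕ) (w : List T) (s' : Reg → ℕ),
    Exec true (zeroA T k) s w s' → w = [] ∧ s' = s ∧ ∀ j < k, s (.A j) = 0 := by
  induction k with
  | zero =>
    intro s w s' h
    have h1 := exec_op h
    exact ⟨h1.1, h1.2, fun j hj => absurd hj (Nat.not_lt_zero j)⟩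
  | succ k ih =>
    intro s w s' h
    obtain ⟨t, w1, w2, hw, h1, h2⟩ := exec_seq h
    obtain ⟨e1, e2, e3⟩ := ih _ _ _ h1
    have h3 := exec_op h2
    obtain ⟨f1, f2, f3⟩ := h3
    subst e2
    refine ⟨by rw [hw, e1, f1]; rfl, f3, ?_⟩
    intro j hj
    rcases Nat.lt_succ_iff_lt_or_eq.mp hj with hj | hj
    · exact e3 j hj
    · subst hj; exact f2

/-- the first star -/
lemma star1_spec {s u : Reg → ℕ} {w : List (Fin 3)}
    (h : Exec true (.star (.seq (.op (.out 0)) (.seq (incP _ .N) (incP _ (.M 0))))) s w u) :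
    ∃ p : ℕ, w = List.replicate p 0 ∧ ∀ (x t : ℕ) (a r : ℕ → ℕ), s = st x t a r →
      u = st (x + p) t a (update r 0 (r 0 + p)) := by
  refine exec_star (fun s w u => ∃ p : ℕ, w = List.replicate p 0 ∧
    ∀ (x t : ℕ) (a r : ℕ → ℕ), s = st x t a r →
      u = st (x + p) t a (update r 0 (r 0 + p))) ?_ ?_ h
  · intro s
    refine ⟨0, rfl, ?_⟩
    intro x t a r hs
    rw [hs]
    simp
  · intro s w t x u h1 ⟨p, hp1, hp2⟩
    obtain ⟨t1, w1, w2, hw, e1, e2⟩ := exec_seq h1
    obtain ⟨t2, w3, w4, hw2, e3, e4⟩ := exec_seq e2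
    obtain ⟨f1, f2⟩ := exec_op e1
    obtain ⟨f3, f4⟩ := exec_op e3
    obtain ⟨f5, f6⟩ := exec_op e4
    refine ⟨p + 1, ?_, ?_⟩
    · rw [hw, hw2, f1, f3, f5, hp1]
      simp [List.replicate_succ]
    · intro x0 t0 a r hs
      subst hs
      rw [f2] at f4
      rw [upd_N] at f4
      rw [f4, upd_M] at f6
      have h7 := hp2 _ _ _ _ f6
      rw [h7]
      simp only [st]
      have e1 : x0 + 1 + p = x0 + (p + 1) := by ring
      have e2 : update (update r 0 (r 0 + 1)) 0 (update r 0 (r 0 + 1) 0 + p)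
          = update r 0 (r 0 + (p + 1)) := by
        rw [update_idem, update_self]
        congr 1
        ring
      rw [e2, e1]

/-- the second and third star -/
lemma star2_spec (c : Fin 3) {s u : Reg → ℕ} {w : List (Fin 3)}
    (h : Exec true (.star (.seq (.op (.out c)) (decP _ .N))) s w u) :
    ∃ q : ℕ, w = List.replicate q c ∧ ∀ (x t : ℕ) (a r : ℕ → ℕ), s = st x t a r →
      ∃ x' : ℕ, u = st x' t a r ∧ x ≤ x' + q := by
  refine exec_star (fun s w u => ∃ q : ℕ, w = List.replicate q c ∧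
    ∀ (x t : ℕ) (a r : ℕ → ℕ), s = st x t a r →
      ∃ x' : ℕ, u = st x' t a r ∧ x ≤ x' + q) ?_ ?_ h
  · intro s
    exact ⟨0, rfl, fun x t a r hs => ⟨x, hs, by omega⟩⟩
  · intro s w t x u h1 ⟨q, hq1, hq2⟩
    obtain ⟨t1, w1, w2, hw, e1, e2⟩ := exec_seq h1
    obtain ⟨f1, f2⟩ := exec_op e1
    obtain ⟨f3, f4⟩ := exec_op e2
    refine ⟨q + 1, ?_, ?_⟩
    · rw [hw, f1, f3, hq1]
      simp [List.replicate_succ]
    · intro x0 t0 a r hs
      subst hs
      rw [f2] at f4
      rcases f4 with ⟨g1, g2⟩ | ⟨_, g2⟩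
      · rw [upd_N] at g2
        obtain ⟨x', g3, g4⟩ := hq2 _ _ _ _ g2
        refine ⟨x', g3, ?_⟩
        simp only [st] at g4 g1
        omega
      · obtain ⟨x', g3, g4⟩ := hq2 _ _ _ _ g2
        exact ⟨x', g3, by omega⟩

lemma word_eq {p q r m : ℕ} (h : abc m = List.replicate p (0 : Fin 3) ++
    (List.replicate q 1 ++ List.replicate r 2)) : p = m ∧ q = m ∧ r = m := by
  have h0 := congrArg (List.count 0) h
  have h1 := congrArg (List.count 1) h
  have h2 := congrArg (List.count 2) h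
  simp [abc, List.count_replicate] at h0 h1 h2
  exact ⟨h0.symm, h1.symm, h2.symm⟩

theorem main (hE : PropE1) (hF : PropF) (h1 : PropAS1) (h2 : PropAS2) : PropTOPS := by
  intro f M k hM m hrun
  obtain ⟨Fmono, -, Vzero, Vone, Vmono, -⟩ := hF
  rw [zero_eq_st] at hrun
  unfold top at hrun
  obtain ⟨s1, w1, v1, hw1, r1, hrun⟩ := exec_seq hrun
  obtain ⟨s2, w2, v2, hw2, r2, hrun⟩ := exec_seq hrun
  obtain ⟨s3, w3, v3, hw3, r3, hrun⟩ := exec_seq hrun
  obtain ⟨s4, w4, v4, hw4, r4, hrun⟩ := exec_seq hrun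
  obtain ⟨s5, w5, v5, hw5, r5, hrun⟩ := exec_seq hrun
  obtain ⟨s6, w6, v6, hw6, r6, hrun⟩ := exec_seq hrun
  obtain ⟨s7, w7, v7, hw7, r7, hrun⟩ := exec_seq hrun
  obtain ⟨s8, w8, v8, hw8, r8, hrun⟩ := exec_seq hrun
  obtain ⟨s9, w9, v9, hw9, r9, hrun⟩ := exec_seq hrun
  obtain ⟨s10, w10, v10, hw10, r10, hrun⟩ := exec_seq hrun
  obtain ⟨s11, w11, w12, hw11, r11, r12⟩ := exec_seq hrun
  obtain ⟨p, hp1, hp2⟩ := star1_spec r1
  have hp3 := hp2 _ _ _ _ rfl
  obtain ⟨a2, b2⟩ := exec_op r2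
  rw [hp3, upd_N] at b2
  obtain ⟨a3, b3⟩ := exec_op r3
  rw [b2, upd_A] at b3
  simp only [st, zero_add] at b3
  rw [b3] at r4
  obtain ⟨a4, n1, a1', hs4, c4, d4⟩ := h1 _ _ _ _ _ _ _ r4
  obtain ⟨a5, b5, c5⟩ := zeroA_spec _ _ _ _ _ r5
  rw [hs4] at b5 c5
  have ha1 : a1' = fun _ => 0 := by
    funext j
    by_cases hj : j < k + 1
    · exact c5 j hj
    · rw [c4 j (by omega), update_of_ne (by omega)]
  subst ha1
  rw [Vone, Vzero _ _ _ (fun _ _ => rfl)] at d4
  rw [b5] at r6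
  obtain ⟨R0, hR0⟩ := hE (Fin 3) M
  obtain ⟨a6, x', r', hs6, c6, d6, e6⟩ := hR0 (max R0 1) (le_max_left _ _) _ _ _ _ _ _ r6
  obtain ⟨q, hq1, hq2⟩ := star2_spec 1 r7
  obtain ⟨x'', hs7, hx''⟩ := hq2 _ _ _ _ hs6
  rw [hs7] at r8
  obtain ⟨a8, n2, a2', hs8, c8, d8⟩ := h2 _ _ _ _ _ _ _ r8
  rw [Vzero _ _ _ (fun _ _ => rfl)] at d8
  obtain ⟨a9, b9⟩ := exec_op r9
  obtain ⟨a10, b10, c10⟩ := zeroA_spec _ _ _ _ _ r10
  -- the amplifier registers before the last decrement
  obtain ⟨a3', hs9, ha3⟩ : ∃ a3' : ℕ → ℕ, s9 = st n2 0 a3' r' ∧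
      ((∀ j < k + 1, a3' j = 0) → ∀ j ≤ k, a2' j ≤ update (fun _ => 0) k 1 j) := by
    rw [hs8] at b9
    rcases b9 with ⟨g1, g2⟩ | ⟨_, g2⟩
    · rw [upd_A] at g2
      refine ⟨_, g2, ?_⟩
      intro hz j hj
      have hzj := hz j (by omega)
      by_cases hjk : j = k
      · subst hjk
        rw [update_self] at hzj
        rw [update_self]
        simp only [st] at hzj
        omega
      · rw [update_of_ne hjk] at hzj
        rw [update_of_ne hjk]
        omega
    · refine ⟨_, g2, ?_⟩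
      intro hz j hj
      have hzj := hz j (by omega)
      rw [hzj]
      exact Nat.zero_le _
  rw [hs9] at b10 c10
  have ha3' := ha3 (fun j hj => c10 j hj)
  obtain ⟨r, hr1, hr2⟩ := star2_spec 2 r11
  obtain ⟨x3, hs11, hx3⟩ := hr2 _ _ _ _ b10
  obtain ⟨a12, b12⟩ := exec_op r12
  rw [hs11] at b12
  have hfin : x3 ≤ 1 ∧ r' = fun _ => 0 := by
    rcases b12 with ⟨g1, g2⟩ | ⟨_, g2⟩
    · rw [upd_N] at g2
      obtain ⟨e1, -, -, e4⟩ := st_inj g2
      simp only [st] at e1
      exact ⟨by omega, e4.symm⟩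
    · obtain ⟨e1, -, -, e4⟩ := st_inj g2
      exact ⟨by omega, e4.symm⟩
  obtain ⟨hx31, hr'⟩ := hfin
  subst hr'
  -- the word
  have hword : abc m = List.replicate p (0 : Fin 3) ++
      (List.replicate q 1 ++ List.replicate r 2) := by
    rw [hw1, hw2, hw3, hw4, hw5, hw6, hw7, hw8, hw9, hw10, hw11, hp1, a2, a3, a4, a5, a6, hq1,
      a8, a9, a10, hr1, a12]
    simp
  obtain ⟨hpm, hqm, hrm⟩ := word_eq hword
  subst hpm
  rw [hqm] at hx''
  rw [hrm] at hx3
  -- sums
  have hsum : ∑ i ∈ Finset.range (max R0 1), update (fun _ : ℕ => 0) 0 p i = p := by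
    rw [Finset.sum_eq_single 0]
    · simp
    · intro b _ hb
      rw [update_of_ne hb]
    · intro h0
      exact absurd (Finset.mem_range.mpr (by omega)) h0
  rw [hsum] at d6 e6
  rw [Finset.sum_const_zero] at d6 e6
  have hn2 : n2 ≤ p + 1 := by omega
  have hchain : x'' ≤ F k (p + 1) := by
    calc x'' ≤ V a2' k n2 := d8
      _ ≤ V (update (fun _ => 0) k 1) k n2 := Vmono _ _ _ _ _ ha3' le_rfl
      _ = F k n2 := Vone _ _
      _ ≤ F k (p + 1) := Fmono k hn2
  exact hM p n1 x' (e6 (by omega))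

end Pool.Agent.W249.FG
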